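import Mathlib

namespace Pool.Agent.Helper909.GeoHyper

open Finset

section core

variable {ι : Type*} [DecidableEq ι]

/-- sign identity for one simplex -/
theorem sign_identity (φ g : ι → ℝ) (τ : Finset ι) :
    τ.Nonempty → (∀ b ∈ τ, φ b ≠ 0) → Set.InjOn g τ →
    (∑ b₀ ∈ τ, if ∀ b ∈ τ.erase b₀, 0 < -φ b * (g b - g b₀) then (1 : ZMod 2) else 0) =
      (if ∀ b ∈ τ, φ b < 0 then 1 else 0) + (if ∀ b ∈ τ, 0 < φ b then 1 else 0) := by
  classical
  induction τ using Finset.induction_on_max_value g with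
  | empty => intro h; exact absurd h (by simp)
  | insert M τ hM hmax ih =>
    intro _ hφ hg
    have hlt : ∀ b ∈ τ, g b < g M := by
      intro b hb
      refine lt_of_le_of_ne (hmax b hb) (fun h => ?_)
      have := hg (by simp [hb]) (by simp) h
      exact hM (this ▸ hb)
    rw [Finset.sum_insert hM, Finset.erase_insert hM]
    have hMφ := hφ M (Finset.mem_insert_self _ _)
    have e1 : (∀ b ∈ τ, 0 < -φ b * (g b - g M)) ↔ ∀ b ∈ τ, 0 < φ b := by
      constructor
      · intro h b hb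
        have := h b hb
        have h2 := hlt b hb
        by_contra hc
        push Not at hc
        nlinarith
      · intro h b hb
        have := h b hb
        have h2 := hlt b hb
        nlinarith
    have e2 : ∀ b₀ ∈ τ, (∀ b ∈ (insert M τ).erase b₀, 0 < -φ b * (g b - g b₀)) ↔
        (φ M < 0 ∧ ∀ b ∈ τ.erase b₀, 0 < -φ b * (g b - g b₀)) := by
      intro b₀ hb₀
      have hne : M ≠ b₀ := by rintro rfl; exact hM hb₀
      rw [Finset.erase_insert_of_ne hne, Finset.forall_mem_insert]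
      refine and_congr_left (fun _ => ?_)
      have h2 := hlt b₀ hb₀
      constructor
      · intro h
        by_contra hc
        push Not at hc
        nlinarith
      · intro h
        nlinarith
    have e3 : (∑ b₀ ∈ τ, if ∀ b ∈ (insert M τ).erase b₀, 0 < -φ b * (g b - g b₀) then (1 : ZMod 2)
        else 0) = if φ M < 0 then (∑ b₀ ∈ τ, if ∀ b ∈ τ.erase b₀, 0 < -φ b * (g b - g b₀)
          then (1 : ZMod 2) else 0) else 0 := by
      split_ifs with h
      · apply Finset.sum_congr rfl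
        intro b₀ hb₀
        rw [if_congr (e2 b₀ hb₀) rfl rfl]
        simp only [h, true_and]
      · apply Finset.sum_eq_zero
        intro b₀ hb₀
        rw [if_congr (e2 b₀ hb₀) rfl rfl]
        simp only [h, false_and, if_false]
    rw [e3, if_congr e1 rfl rfl]
    rcases τ.eq_empty_or_nonempty with rfl | hne
    · simp only [Finset.notMem_empty, false_imp_iff, implies_true, if_true, Finset.sum_empty,
        Finset.insert_empty, Finset.mem_singleton, forall_eq]
      rcases lt_or_gt_of_ne hMφ with h | h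
      · simp [h, not_lt.2 h.le]
      · simp [h, not_lt.2 h.le]
    · have hih := ih hne (fun b hb => hφ b (Finset.mem_insert_of_mem hb))
        (hg.mono (by intro x hx; simp at hx ⊢; exact Or.inr hx))
      rw [hih]
      simp only [Finset.forall_mem_insert]
      rcases lt_or_gt_of_ne hMφ with h | h
      · simp only [h, if_true, true_and, not_lt.2 h.le, false_and, if_false, add_zero]
        have : ∀ a b : ZMod 2, a + (b + a) = b := by decide
        exact this _ _
      · simp only [h, not_lt.2 h.le, if_false, true_and, false_and, add_zero, zero_add]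

/-- the parity lemma -/
theorem parity (m : ℕ) (hm : 1 ≤ m) (Z : Finset (Finset ι)) (hcard : ∀ τ ∈ Z, τ.card = m)
    (hcyc : ∀ κ : Finset ι, Even (Z.filter (fun τ => κ ∈ τ.powersetCard (m - 1))).card)
    (φ : ι → ℝ) (hφ : ∀ τ ∈ Z, ∀ b ∈ τ, φ b ≠ 0) (hnot : ∀ τ ∈ Z, ¬ ∀ b ∈ τ, 0 < φ b)
    (g : Finset ι → ι → ℝ) (hg : ∀ τ ∈ Z, Set.InjOn (g τ) τ) (q : Finset ι → Prop)
    (hq : ∀ τ ∈ Z, ∀ b₀ ∈ τ, q (τ.erase b₀) ↔
      ∀ b ∈ τ.erase b₀, 0 < -φ b * (g τ b - g τ b₀)) :
    Even (Z.filter (fun τ => ∀ b ∈ τ, φ b < 0)).card := by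
  classical
  rw [← ZMod.natCast_eq_zero_iff_even, Finset.card_filter, Nat.cast_sum]
  have h1 : ∀ τ ∈ Z, ((if ∀ b ∈ τ, φ b < 0 then 1 else 0 : ℕ) : ZMod 2) =
      ∑ κ ∈ τ.powersetCard (m - 1), if q κ then (1 : ZMod 2) else 0 := by
    intro τ hτ
    have hne : τ.Nonempty := by
      rw [← Finset.card_pos, hcard τ hτ]; omega
    have := sign_identity φ (g τ) τ hne (hφ τ hτ) (hg τ hτ)
    rw [if_neg (hnot τ hτ), add_zero] at this
    push_cast
    rw [← this]
    apply Finset.sum_bij (fun b₀ _ => τ.erase b₀)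
    · intro b₀ hb₀
      rw [Finset.mem_powersetCard]
      exact ⟨Finset.erase_subset _ _, by rw [Finset.card_erase_of_mem hb₀, hcard τ hτ]⟩
    · intro a ha b hb h
      by_contra hne
      have : a ∈ τ.erase b := Finset.mem_erase.2 ⟨hne, ha⟩
      rw [← h] at this
      exact absurd rfl (Finset.mem_erase.1 this).1
    · intro κ hκ
      rw [Finset.mem_powersetCard] at hκ
      have hlt : κ.card < τ.card := by rw [hκ.2, hcard τ hτ]; omega
      obtain ⟨b₀, hb₀, hb₀'⟩ := Finset.exists_mem_notMem_of_card_lt_card hlt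
      refine ⟨b₀, hb₀, ?_⟩
      symm
      apply Finset.eq_of_subset_of_card_le
      · intro x hx
        exact Finset.mem_erase.2 ⟨by rintro rfl; exact hb₀' hx, hκ.1 hx⟩
      · rw [Finset.card_erase_of_mem hb₀, hcard τ hτ, hκ.2]
    · intro b₀ hb₀
      rw [if_congr (hq τ hτ b₀ hb₀) rfl rfl]
  rw [Finset.sum_congr rfl h1]
  rw [Finset.sum_comm' (s' := fun κ => Z.filter (fun τ => κ ∈ τ.powersetCard (m - 1)))
    (t' := Z.biUnion (fun τ => τ.powersetCard (m - 1)))]
  · apply Finset.sum_eq_zero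
    intro κ _
    rw [Finset.sum_const, nsmul_eq_mul, (ZMod.natCast_eq_zero_iff_even).2 (hcyc κ), zero_mul]
  · intro τ κ
    simp only [Finset.mem_filter, Finset.mem_biUnion]
    constructor
    · rintro ⟨h1, h2⟩; exact ⟨⟨h1, h2⟩, τ, h1, h2⟩
    · rintro ⟨⟨h1, h2⟩, _⟩; exact ⟨h1, h2⟩

theorem no_cycle (m : ℕ) (hm : 1 ≤ m) (Z : Finset (Finset ι)) (hne : Z.Nonempty)
    (hcard : ∀ τ ∈ Z, τ.card = m) (w : Finset ι → ℝ) (f : Finset ι → ι → ℝ)
    (A : (ι → ℝ) → ℝ → Prop)
    (hA : ∀ φ P, A φ P → (∀ τ ∈ Z, ∀ b ∈ τ, φ b ≠ 0) → (∀ τ ∈ Z, P < w τ) →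
      Even (Z.filter (fun τ => ∀ b ∈ τ, φ b < 0)).card)
    (hflex : ∀ β ∈ Z, ∀ ρ ⊆ β, ρ.Nonempty → ∃ φ P, A φ P ∧ P < w β ∧ (∀ b ∈ ρ, φ b < 0) ∧
      (∀ b ∈ β, b ∉ ρ → 0 < φ b) ∧ ∀ τ ∈ Z, ∀ v ∈ τ, v ∉ β → (φ v < 0 ↔ f β v < 0) ∧ φ v ≠ 0)
    (hempty : ∀ β ∈ Z, ∀ τ ∈ Z, ¬ ∀ v ∈ τ, f β v < 0) : False := by
  classical
  obtain ⟨β, hβ, hmin⟩ := Finset.exists_min_image Z w hne
  have key : ∀ ρ ∈ β.powerset.erase ∅,
      (((Z.filter (fun τ => τ ∩ β ⊆ ρ ∧ ∀ v ∈ τ, v ∉ β → f β v < 0)).card : ℕ) : ZMod 2) = 0 := by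
    intro ρ hρ
    rw [Finset.mem_erase, Finset.mem_powerset] at hρ
    obtain ⟨φ, P, h1, h2, h3, h4, h5⟩ := hflex β hβ ρ hρ.2 (Finset.nonempty_iff_ne_empty.2 hρ.1)
    rw [ZMod.natCast_eq_zero_iff_even]
    have h6 := hA φ P h1 (by
      intro τ hτ b hb
      by_cases hbβ : b ∈ β
      · by_cases hbρ : b ∈ ρ
        · exact (h3 b hbρ).ne
        · exact (h4 b hbβ hbρ).ne'
      · exact (h5 τ hτ b hb hbβ).2) (fun τ hτ => lt_of_lt_of_le h2 (hmin τ hτ))
    rw [show (Z.filter (fun τ => τ ∩ β ⊆ ρ ∧ ∀ v ∈ τ, v ∉ β → f β v < 0)) =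
      Z.filter (fun τ => ∀ b ∈ τ, φ b < 0) from Finset.filter_congr (fun τ hτ => ?_)]
    · exact h6
    constructor
    · rintro ⟨h7, h8⟩ b hb
      by_cases hbβ : b ∈ β
      · exact h3 b (h7 (Finset.mem_inter.2 ⟨hb, hbβ⟩))
      · exact (h5 τ hτ b hb hbβ).1.2 (h8 b hb hbβ)
    · intro h7
      refine ⟨?_, ?_⟩
      · intro b hb
        rw [Finset.mem_inter] at hb
        by_contra hbρ
        exact absurd (h7 b hb.1) (not_lt.2 (h4 b hb.2 hbρ).le)
      · intro v hv hvβ
        exact (h5 τ hτ v hv hvβ).1.1 (h7 v hv)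
  have hsum : ∑ ρ ∈ β.powerset.erase ∅,
      (((Z.filter (fun τ => τ ∩ β ⊆ ρ ∧ ∀ v ∈ τ, v ∉ β → f β v < 0)).card : ℕ) : ZMod 2) = 0 :=
    Finset.sum_eq_zero key
  have hsum2 : ∑ ρ ∈ β.powerset.erase ∅,
      (((Z.filter (fun τ => τ ∩ β ⊆ ρ ∧ ∀ v ∈ τ, v ∉ β → f β v < 0)).card : ℕ) : ZMod 2) =
      ∑ τ ∈ Z, ((((β.powerset.erase ∅).filter
        (fun ρ => τ ∩ β ⊆ ρ ∧ ∀ v ∈ τ, v ∉ β → f β v < 0)).card : ℕ) : ZMod 2) := by
    simp only [Finset.card_filter, Nat.cast_sum]
    exact Finset.sum_comm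
  rw [hsum2, ← Finset.add_sum_erase Z _ hβ] at hsum
  have hβne : β.Nonempty := by rw [← Finset.card_pos, hcard β hβ]; omega
  have t1 : (((β.powerset.erase ∅).filter
        (fun ρ => β ∩ β ⊆ ρ ∧ ∀ v ∈ β, v ∉ β → f β v < 0)).card : ℕ) = 1 := by
    rw [Finset.card_eq_one]
    refine ⟨β, ?_⟩
    ext ρ
    simp only [Finset.mem_filter, Finset.mem_erase, Finset.mem_powerset, Finset.inter_self,
      Finset.mem_singleton]
    constructor
    · rintro ⟨⟨_, h1⟩, h2, _⟩; exact Finset.Subset.antisymm h1 h2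
    · rintro rfl
      exact ⟨⟨hβne.ne_empty, Finset.Subset.refl _⟩, Finset.Subset.refl _,
        fun v hv hv' => absurd hv hv'⟩
  have t2 : ∀ τ ∈ Z.erase β, ((((β.powerset.erase ∅).filter
        (fun ρ => τ ∩ β ⊆ ρ ∧ ∀ v ∈ τ, v ∉ β → f β v < 0)).card : ℕ) : ZMod 2) = 0 := by
    intro τ hτ
    rw [Finset.mem_erase] at hτ
    by_cases hbel : ∀ v ∈ τ, v ∉ β → f β v < 0
    · have hne0 : (τ ∩ β).Nonempty := by
        rw [Finset.nonempty_iff_ne_empty]
        intro h0
        apply hempty β hβ τ hτ.2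
        intro v hv
        refine hbel v hv (fun hvβ => ?_)
        have : v ∈ τ ∩ β := Finset.mem_inter.2 ⟨hv, hvβ⟩
        rw [h0] at this
        exact absurd this (Finset.notMem_empty _)
      have hlt : (τ ∩ β).card < β.card := by
        apply Finset.card_lt_card
        refine ⟨Finset.inter_subset_right, fun h => ?_⟩
        have h1 : β ⊆ τ := h.trans Finset.inter_subset_left
        exact hτ.1 (Finset.eq_of_subset_of_card_le h1 (by rw [hcard τ hτ.2, hcard β hβ])).symm
      have : (β.powerset.erase ∅).filter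
        (fun ρ => τ ∩ β ⊆ ρ ∧ ∀ v ∈ τ, v ∉ β → f β v < 0) = Finset.Icc (τ ∩ β) β := by
        ext ρ
        simp only [Finset.mem_filter, Finset.mem_erase, Finset.mem_powerset, Finset.mem_Icc]
        constructor
        · rintro ⟨⟨_, h1⟩, h2, _⟩; exact ⟨h2, h1⟩
        · rintro ⟨h1, h2⟩
          exact ⟨⟨(hne0.mono h1).ne_empty, h2⟩, h1, hbel⟩
      rw [this, Finset.card_Icc_finset Finset.inter_subset_right]
      rw [ZMod.natCast_eq_zero_iff_even]
      exact Nat.even_pow.2 ⟨even_two, by omega⟩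
    · have : (β.powerset.erase ∅).filter
        (fun ρ => τ ∩ β ⊆ ρ ∧ ∀ v ∈ τ, v ∉ β → f β v < 0) = ∅ := by
        rw [Finset.filter_eq_empty_iff]
        rintro ρ _ ⟨_, h⟩
        exact hbel h
      rw [this]; simp
  rw [t1, Finset.sum_eq_zero t2] at hsum
  exact absurd hsum (by decide)

/-- counting: a family without nonempty cycles is small -/
theorem card_le_of_no_cycle (m : ℕ) (U : Finset ι) (F : Finset (Finset ι))
    (hF : ∀ τ ∈ F, τ ⊆ U) (h : ∀ Z ⊆ F, Z.Nonempty →
      ¬ ∀ κ : Finset ι, Even (Z.filter (fun τ => κ ∈ τ.powersetCard (m - 1))).card) :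
    F.card ≤ U.card.choose (m - 1) := by
  classical
  set bd : Finset (Finset ι) → Finset (Finset ι) := fun Z =>
    (U.powersetCard (m - 1)).filter (fun κ => Odd (Z.filter (fun τ => κ ∈ τ.powersetCard (m - 1))).card)
    with hbd
  have hinj : Set.InjOn bd (F.powerset : Set (Finset (Finset ι))) := by
    intro Z1 h1 Z2 h2 h12
    rw [Finset.mem_coe, Finset.mem_powerset] at h1 h2
    by_contra hne
    set Z := symmDiff Z1 Z2 with hZ
    have hZF : Z ⊆ F := by
      intro x hx
      rw [hZ, Finset.mem_symmDiff] at hx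
      rcases hx with hx | hx
      · exact h1 hx.1
      · exact h2 hx.1
    refine h Z hZF ?_ ?_
    · rw [Finset.nonempty_iff_ne_empty]
      intro h0
      exact hne (symmDiff_eq_bot.1 h0)
    · intro κ
      have hk : (Z.filter (fun τ => κ ∈ τ.powersetCard (m - 1))) =
          symmDiff (Z1.filter (fun τ => κ ∈ τ.powersetCard (m - 1)))
            (Z2.filter (fun τ => κ ∈ τ.powersetCard (m - 1))) := by
        ext x
        simp only [hZ, Finset.mem_filter, Finset.mem_symmDiff]
        tauto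
      have hpar : ∀ X Y : Finset (Finset ι), (Odd X.card ↔ Odd Y.card) → Even (symmDiff X Y).card := by
        intro X Y hXY
        have e1 : (symmDiff X Y).card = (X \ Y).card + (Y \ X).card := by
          rw [symmDiff_def, Finset.sup_eq_union]
          apply Finset.card_union_of_disjoint
          rw [Finset.disjoint_left]
          intro a ha hb
          exact (Finset.mem_sdiff.1 hb).2 (Finset.mem_sdiff.1 ha).1
        have e2 := Finset.card_sdiff_add_card_inter X Y
        have e3 := Finset.card_sdiff_add_card_inter Y X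
        rw [Finset.inter_comm] at e3
        rw [e1]
        rcases Nat.even_or_odd X.card with hX | hX
        · have hY : Even Y.card := by
            rw [← Nat.not_odd_iff_even, ← hXY, Nat.not_odd_iff_even]; exact hX
          rw [Nat.even_iff] at hX hY ⊢
          omega
        · have hY : Odd Y.card := hXY.1 hX
          rw [Nat.odd_iff] at hX hY
          rw [Nat.even_iff]
          omega
      rw [hk]
      apply hpar
      by_cases hκ : κ ∈ U.powersetCard (m - 1)
      · have := Finset.ext_iff.1 h12 κ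
        rw [hbd] at this
        simp only [Finset.mem_filter, hκ, true_and] at this
        exact this
      · have hz : ∀ W : Finset (Finset ι), W ⊆ F →
            W.filter (fun τ => κ ∈ τ.powersetCard (m - 1)) = ∅ := by
          intro W hW
          rw [Finset.filter_eq_empty_iff]
          intro τ hτ hκτ
          apply hκ
          rw [Finset.mem_powersetCard] at hκτ ⊢
          exact ⟨hκτ.1.trans (hF τ (hW hτ)), hκτ.2⟩
        rw [hz Z1 h1, hz Z2 h2]
  have hmaps : ∀ Z ∈ F.powerset, bd Z ∈ (U.powersetCard (m - 1)).powerset := by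
    intro Z _
    rw [Finset.mem_powerset]
    exact Finset.filter_subset _ _
  have := Finset.card_le_card_of_injOn bd hmaps hinj
  rw [Finset.card_powerset, Finset.card_powerset, Finset.card_powersetCard] at this
  exact (Nat.pow_le_pow_iff_right (by norm_num)).1 this

end core

section frames

variable {ι L : Type*} [DecidableEq ι] [AddCommGroup L] [Module ℝ L]

/-- coordinates with respect to the basis formed by the `v a`, `a ∈ σ`, and `u` -/
structure IsFrame (v : ι → L) (u : L) (σ : Finset ι) (κ : ι → L →ₗ[ℝ] ℝ) (f : L →ₗ[ℝ] ℝ) :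
    Prop where
  rep : ∀ x, x = ∑ a ∈ σ, κ a x • v a + f x • u
  kk : ∀ a ∈ σ, κ a (v a) = 1
  kne : ∀ a ∈ σ, ∀ b ∈ σ, a ≠ b → κ a (v b) = 0
  ku : ∀ a ∈ σ, κ a u = 0
  fv : ∀ a ∈ σ, f (v a) = 0
  fu : f u = 1

theorem exists_frame [FiniteDimensional ℝ L] (v : ι → L) (u : L) (σ : Finset ι)
    (hcard : σ.card + 1 = Module.finrank ℝ L)
    (hli : LinearIndependent ℝ (fun x : σ => v x))
    (hu : u ∉ Submodule.span ℝ (Set.range (fun x : σ => v x))) :
    ∃ (κ : ι → L →ₗ[ℝ] ℝ) (f : L →ₗ[ℝ] ℝ), IsFrame v u σ κ f := by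
  classical
  have h1 := hli.option hu
  have hc : Fintype.card (Option σ) = Module.finrank ℝ L := by
    rw [Fintype.card_option, Fintype.card_coe, hcard]
  let B := basisOfLinearIndependentOfCardEqFinrank h1 hc
  have hB : ∀ o, B o = Option.casesOn' o u (fun x : σ => v x) := by
    intro o
    simp only [B, coe_basisOfLinearIndependentOfCardEqFinrank]
  refine ⟨fun a => if h : a ∈ σ then B.coord (some ⟨a, h⟩) else 0, B.coord none, ?_, ?_, ?_, ?_,
    ?_, ?_⟩
  · intro x
    have h2 := B.sum_repr x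
    rw [Fintype.sum_option, hB none] at h2
    conv_lhs => rw [← h2]
    rw [add_comm, ← Finset.sum_coe_sort σ]
    simp only [hB, Option.casesOn'_some, Option.casesOn'_none, Module.Basis.coord_apply,
      Finset.coe_mem, dite_true]
  · intro a ha
    simp only [ha, dite_true]
    have : v a = B (some ⟨a, ha⟩) := by rw [hB]; rfl
    rw [this]; simp
  · intro a ha b hb hab
    simp only [ha, dite_true]
    have : v b = B (some ⟨b, hb⟩) := by rw [hB]; rfl
    rw [this]
    simp only [Module.Basis.coord_apply, Module.Basis.repr_self]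
    rw [Finsupp.single_apply, if_neg]
    intro h
    simp only [Option.some.injEq, Subtype.mk.injEq] at h
    exact hab h.symm
  · intro a ha
    simp only [ha, dite_true]
    have : u = B none := by rw [hB]; rfl
    rw [this]; simp
  · intro a ha
    have : v a = B (some ⟨a, ha⟩) := by rw [hB]; rfl
    rw [this]; simp
  · have : u = B none := by rw [hB]; rfl
    rw [this]; simp

omit [DecidableEq ι] in
theorem IsFrame.smul_u {v : ι → L} {u : L} {σ : Finset ι} {κ : ι → L →ₗ[ℝ] ℝ} {f : L →ₗ[ℝ] ℝ}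
    (h : IsFrame v u σ κ f) {t : ℝ} (ht : t * t = 1) : IsFrame v (t • u) σ κ (t • f) := by
  refine ⟨?_, h.kk, h.kne, ?_, ?_, ?_⟩
  · intro x
    have := h.rep x
    rw [LinearMap.smul_apply, smul_eq_mul, smul_smul]
    rw [show t * f x * t = (t * t) * f x by ring, ht, one_mul]
    exact this
  · intro a ha; rw [map_smul, h.ku a ha, smul_zero]
  · intro a ha; rw [LinearMap.smul_apply, h.fv a ha, smul_zero]
  · rw [LinearMap.smul_apply, map_smul, h.fu, smul_eq_mul, smul_eq_mul, mul_one, ht]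

theorem IsFrame.ne_zero {v : ι → L} {u : L} {σ : Finset ι} {κ : ι → L →ₗ[ℝ] ℝ} {f : L →ₗ[ℝ] ℝ}
    (h : IsFrame v u σ κ f) {x : ι} (hx : x ∉ σ)
    (hli : LinearIndependent ℝ (fun y : (insert x σ : Finset ι) => v y)) : f (v x) ≠ 0 := by
  intro h0
  have h1 := h.rep (v x)
  rw [h0, zero_smul, add_zero] at h1
  have h2 := linearIndependent_iff'.1 hli Finset.univ
    (fun y => if (y : ι) = x then 1 else - κ y (v x)) (by
      rw [Finset.sum_coe_sort (insert x σ) (fun y => (if y = x then (1:ℝ) else - κ y (v x)) • v y)]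
      rw [Finset.sum_insert hx, if_pos rfl, one_smul]
      rw [Finset.sum_congr rfl (g := fun y => -(κ y (v x) • v y))]
      · rw [Finset.sum_neg_distrib, ← h1, add_neg_cancel]
      · intro y hy
        rw [if_neg (by rintro rfl; exact hx hy), neg_smul])
    ⟨x, Finset.mem_insert_self _ _⟩ (Finset.mem_univ _)
  simp at h2

/-- the families that occur in the proof are small -/
theorem fam_card_le (v : ι → L) (u : L) (V α : Finset ι) (m : ℕ) (hm : 1 ≤ m)
    (F : Finset (Finset ι)) (hFV : ∀ τ ∈ F, τ ⊆ V \ α) (hFc : ∀ τ ∈ F, τ.card = m)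
    (κ : Finset ι → ι → L →ₗ[ℝ] ℝ) (f : Finset ι → L →ₗ[ℝ] ℝ)
    (hfr : ∀ τ ∈ F, IsFrame v u (α ∪ τ) (κ τ) (f τ))
    (p p' : L) (hp : ∀ τ ∈ F, ∀ b ∈ τ, 0 < κ τ b p)
    (hpp : ∀ τ ∈ F, ∀ a ∈ τ, ∀ b ∈ τ, a ≠ b → κ τ a p * κ τ b p' ≠ κ τ b p * κ τ a p')
    (hf : ∀ τ ∈ F, ∀ x ∈ V \ α, x ∉ τ → f τ (v x) ≠ 0)
    (hempty : ∀ β ∈ F, ∀ τ ∈ F, ¬ ∀ x ∈ τ, f β (v x) < 0) :
    F.card ≤ (V \ α).card.choose (m - 1) := by
  classical
  apply card_le_of_no_cycle m (V \ α) F hFV
  intro Z hZF hZne hcyc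
  have hdisj : ∀ τ ∈ F, Disjoint α τ := by
    intro τ hτ
    rw [Finset.disjoint_left]
    intro a ha ha'
    exact (Finset.mem_sdiff.1 (hFV τ hτ ha')).2 ha
  refine no_cycle m hm Z hZne (fun τ hτ => hFc τ (hZF hτ)) (fun τ => f τ p)
    (fun τ x => f τ (v x))
    (fun φ P => ∃ ψ : L →ₗ[ℝ] ℝ, ψ u = 1 ∧ (∀ a ∈ α, ψ (v a) = 0) ∧ (φ = fun x => ψ (v x)) ∧
      P = ψ p) ?_ ?_ (fun β hβ τ hτ => hempty β (hZF hβ) τ (hZF hτ))
  · -- parity
    rintro φ P ⟨ψ, hψu, hψα, rfl, rfl⟩ hφ hP
    refine parity m hm Z (fun τ hτ => hFc τ (hZF hτ)) hcyc _ hφ ?_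
      (fun τ b => κ τ b p' / κ τ b p) ?_
      (fun κ0 => ∃ (ε : ι → ℝ) (r s : ℝ), p' = ∑ a ∈ α ∪ κ0, ε a • v a + r • p + s • u ∧
        ∀ b ∈ κ0, 0 < -(ψ (v b)) * ε b) ?_
    · intro τ hτ hall
      have h1 := (hfr τ (hZF hτ)).rep p
      have h2 : ψ p = ∑ b ∈ τ, κ τ b p * ψ (v b) + f τ p := by
        conv_lhs => rw [h1]
        rw [map_add, map_sum, map_smul, hψu, smul_eq_mul, mul_one,
          Finset.sum_union (hdisj τ (hZF hτ))]
        simp only [map_smul, smul_eq_mul]
        rw [Finset.sum_eq_zero (s := α) (fun a ha => by rw [hψα a ha, mul_zero]), zero_add]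
      have h3 : 0 ≤ ∑ b ∈ τ, κ τ b p * ψ (v b) :=
        Finset.sum_nonneg (fun b hb => mul_nonneg (hp τ (hZF hτ) b hb).le (hall b hb).le)
      have h4 := hP τ hτ
      linarith
    · intro τ hτ a ha b hb hab
      by_contra hne
      have h1 := (hp τ (hZF hτ) a ha)
      have h2 := (hp τ (hZF hτ) b hb)
      apply hpp τ (hZF hτ) a ha b hb hne
      have h3 : κ τ a p' / κ τ a p = κ τ b p' / κ τ b p := hab
      rw [div_eq_div_iff h1.ne' h2.ne'] at h3
      linarith
    · intro τ hτ b₀ hb₀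
      have hF := hfr τ (hZF hτ)
      have hb₀α : b₀ ∉ α := fun h => Finset.disjoint_left.1 (hdisj τ (hZF hτ)) h hb₀
      have hpb := hp τ (hZF hτ) b₀ hb₀
      have hins : α ∪ τ = insert b₀ (α ∪ τ.erase b₀) := by
        rw [← Finset.union_insert, Finset.insert_erase hb₀]
      have hnin : b₀ ∉ α ∪ τ.erase b₀ := by
        rw [Finset.mem_union, not_or]
        exact ⟨hb₀α, Finset.notMem_erase _ _⟩
      constructor
      · rintro ⟨ε, r, s, h1, h2⟩
        have hr : κ τ b₀ p' = r * κ τ b₀ p := by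
          conv_lhs => rw [h1]
          rw [map_add, map_add, map_sum, map_smul, map_smul,
            hF.ku b₀ (Finset.mem_union_right _ hb₀), smul_zero, add_zero, smul_eq_mul]
          rw [Finset.sum_eq_zero, zero_add]
          intro a ha
          rw [map_smul, hF.kne b₀ (Finset.mem_union_right _ hb₀) a
            (hins ▸ Finset.mem_insert_of_mem ha) (by rintro rfl; exact hnin ha), smul_zero]
        have hrr : κ τ b₀ p' / κ τ b₀ p = r := by rw [hr]; field_simp
        intro b hb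
        have hb' := Finset.mem_of_mem_erase hb
        have hpb' := hp τ (hZF hτ) b hb'
        have he : κ τ b p' = ε b + r * κ τ b p := by
          conv_lhs => rw [h1]
          rw [map_add, map_add, map_sum, map_smul, map_smul,
            hF.ku b (Finset.mem_union_right _ hb'), smul_zero, add_zero, smul_eq_mul]
          congr 1
          rw [Finset.sum_eq_single b]
          · rw [map_smul, hF.kk b (Finset.mem_union_right _ hb'), smul_eq_mul, mul_one]
          · intro a ha hab
            rw [map_smul, hF.kne b (Finset.mem_union_right _ hb') a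
              (hins ▸ Finset.mem_insert_of_mem ha) hab.symm, smul_zero]
          · intro h; exact absurd (Finset.mem_union_right _ hb) h
        have h3 := h2 b hb
        rw [hrr]
        have h4 : -ψ (v b) * (κ τ b p' / κ τ b p - r) = (-ψ (v b) * ε b) / κ τ b p := by
          rw [he]; field_simp; ring
        rw [h4]
        exact div_pos h3 hpb'
      · intro h
        set r := κ τ b₀ p' / κ τ b₀ p with hrdef
        refine ⟨fun a => κ τ a p' - r * κ τ a p, r, f τ p' - r * f τ p, ?_, ?_⟩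
        · have e1 := hF.rep p'
          have e2 := hF.rep p
          have e3 : p' - r • p = ∑ a ∈ α ∪ τ, (κ τ a p' - r * κ τ a p) • v a +
              (f τ p' - r * f τ p) • u := by
            conv_lhs => rw [e1, e2]
            rw [smul_add, Finset.smul_sum]
            simp only [sub_smul, Finset.sum_sub_distrib, smul_smul]
            abel
          rw [hins, Finset.sum_insert hnin] at e3
          have e4 : κ τ b₀ p' - r * κ τ b₀ p = 0 := by
            rw [hrdef]; field_simp; ring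
          rw [e4, zero_smul, zero_add] at e3
          rw [add_right_comm, ← e3, sub_add_cancel]
        · intro b hb
          have hb' := Finset.mem_of_mem_erase hb
          have hpb' := hp τ (hZF hτ) b hb'
          have h3 := h b hb
          have h4 : -ψ (v b) * (κ τ b p' - r * κ τ b p) =
              κ τ b p * (-ψ (v b) * (κ τ b p' / κ τ b p - r)) := by
            field_simp
          rw [h4]
          exact mul_pos hpb' h3
  · -- flexing
    intro β hβ ρ hρ hρne
    have hβF := hZF hβ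
    have hF := hfr β hβF
    set y : ι → ℝ := fun b => if b ∈ ρ then -(m : ℝ) / κ β b p else 1 / κ β b p with hy
    have key : ∃ δ : ℝ, 0 < δ ∧ ∀ x ∈ (V \ α) \ β,
        (f β (v x) + δ * ∑ b ∈ β, y b * κ β b (v x) < 0 ↔ f β (v x) < 0) ∧
        f β (v x) + δ * ∑ b ∈ β, y b * κ β b (v x) ≠ 0 := by
      have hev : ∀ x ∈ (V \ α) \ β, ∀ᶠ δ : ℝ in nhdsWithin 0 (Set.Ioi 0),
          (f β (v x) + δ * ∑ b ∈ β, y b * κ β b (v x) < 0 ↔ f β (v x) < 0) ∧
          f β (v x) + δ * ∑ b ∈ β, y b * κ β b (v x) ≠ 0 := by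
        intro x hx
        rw [Finset.mem_sdiff] at hx
        have hne := hf β hβF x hx.1 hx.2
        set c := ∑ b ∈ β, y b * κ β b (v x)
        have htend : Filter.Tendsto (fun δ : ℝ => f β (v x) + δ * c) (nhdsWithin 0 (Set.Ioi 0))
            (nhds (f β (v x))) := by
          have : Filter.Tendsto (fun δ : ℝ => f β (v x) + δ * c) (nhds 0)
              (nhds (f β (v x) + 0 * c)) := by
            apply Continuous.tendsto
            fun_prop
          rw [zero_mul, add_zero] at this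
          exact this.mono_left nhdsWithin_le_nhds
        rcases lt_or_gt_of_ne hne with h | h
        · filter_upwards [htend.eventually_lt_const h] with δ hδ
          exact ⟨⟨fun _ => h, fun _ => hδ⟩, hδ.ne⟩
        · filter_upwards [htend.eventually_const_lt h] with δ hδ
          exact ⟨⟨fun h' => absurd h' (not_lt.2 hδ.le), fun h' => absurd h' (not_lt.2 h.le)⟩,
            hδ.ne'⟩
      have hall := (Filter.eventually_all_finset ((V \ α) \ β)).2 hev
      obtain ⟨δ, h1, h2⟩ := (hall.and self_mem_nhdsWithin).exists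
      exact ⟨δ, h2, h1⟩
    obtain ⟨δ, hδ, hδx⟩ := key
    let ψ : L →ₗ[ℝ] ℝ := f β + δ • ∑ b ∈ β, y b • κ β b
    have hψ : ∀ x, ψ x = f β x + δ * ∑ b ∈ β, y b * κ β b x := by
      intro x
      simp [ψ, LinearMap.sum_apply]
    have hψb : ∀ b ∈ β, ψ (v b) = δ * y b := by
      intro b hb
      rw [hψ, hF.fv b (Finset.mem_union_right _ hb), zero_add]
      congr 1
      rw [Finset.sum_eq_single b]
      · rw [hF.kk b (Finset.mem_union_right _ hb), mul_one]
      · intro a ha hab
        rw [hF.kne a (Finset.mem_union_right _ ha) b (Finset.mem_union_right _ hb) hab, mul_zero]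
      · intro h; exact absurd hb h
    refine ⟨fun x => ψ (v x), ψ p, ⟨ψ, ?_, ?_, rfl, rfl⟩, ?_, ?_, ?_, ?_⟩
    · rw [hψ, hF.fu, Finset.sum_eq_zero, mul_zero, add_zero]
      intro b hb
      rw [hF.ku b (Finset.mem_union_right _ hb), mul_zero]
    · intro a ha
      rw [hψ, hF.fv a (Finset.mem_union_left _ ha), Finset.sum_eq_zero, mul_zero, add_zero]
      intro b hb
      rw [hF.kne b (Finset.mem_union_right _ hb) a (Finset.mem_union_left _ ha) (by
        rintro rfl
        exact Finset.disjoint_left.1 (hdisj β hβF) ha hb), mul_zero]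
    · rw [hψ]
      have h1 : ∑ b ∈ β, y b * κ β b p = ∑ b ∈ β, (if b ∈ ρ then -(m : ℝ) else 1) := by
        apply Finset.sum_congr rfl
        intro b hb
        have := (hp β hβF b hb).ne'
        simp only [hy]
        split_ifs
        · field_simp
        · field_simp
      have h2 : ∑ b ∈ β, (if b ∈ ρ then -(m : ℝ) else 1) = (m : ℝ) - (m + 1) * (ρ.card : ℝ) := by
        have h3 : ∑ b ∈ β, (if b ∈ ρ then -(m : ℝ) else 1) =
            ∑ b ∈ β, ((1 : ℝ) - (m + 1) * (if b ∈ ρ then 1 else 0)) := by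
          apply Finset.sum_congr rfl
          intro b _
          split_ifs <;> ring
        rw [h3, Finset.sum_sub_distrib, ← Finset.mul_sum, Finset.sum_boole]
        have h4 : β.filter (fun b => b ∈ ρ) = ρ := by
          ext b
          rw [Finset.mem_filter]
          exact ⟨fun h => h.2, fun h => ⟨hρ h, h⟩⟩
        rw [h4, Finset.sum_const, hFc β hβF, nsmul_eq_mul, mul_one]
      rw [h1, h2]
      have h5 : (1 : ℝ) ≤ (ρ.card : ℝ) := by exact_mod_cast Finset.card_pos.2 hρne
      have h6 : (0 : ℝ) ≤ (m : ℝ) := Nat.cast_nonneg m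
      have h7 : (m : ℝ) - (m + 1) * (ρ.card : ℝ) < 0 := by nlinarith
      have := mul_neg_of_pos_of_neg hδ h7
      linarith
    · intro b hb
      show ψ (v b) < 0
      have hbβ := hρ hb
      rw [hψb b hbβ]
      simp only [hy, if_pos hb]
      have hm' : (0 : ℝ) < (m : ℝ) := by exact_mod_cast hm
      exact mul_neg_of_pos_of_neg hδ (div_neg_of_neg_of_pos (by linarith) (hp β hβF b hbβ))
    · intro b hb hbρ
      show 0 < ψ (v b)
      rw [hψb b hb]
      simp only [hy, if_neg hbρ]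
      exact mul_pos hδ (div_pos one_pos (hp β hβF b hb))
    · intro τ hτ x hx hxβ
      have h1 := hδx x (Finset.mem_sdiff.2 ⟨hFV τ (hZF hτ) hx, hxβ⟩)
      rw [← hψ] at h1
      exact h1

end frames

end Pool.Agent.Helper909.GeoHyper
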