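import Pool.Agent.Helper909.GeoHyperCore

namespace Pool.Agent.Helper909.GeoHyper

open Finset

section main

variable {ι L : Type*} [DecidableEq ι] [AddCommGroup L] [Module ℝ L]

/-- the sign attached to a Boolean -/
def sg (b : Bool) : ℝ := if b then 1 else -1

theorem sg_mul_self (b : Bool) : sg b * sg b = 1 := by
  cases b <;> simp [sg]

theorem sg_ne_zero (b : Bool) : sg b ≠ 0 := by
  cases b <;> simp [sg]

theorem exists_split (σ : Finset ι) (hσ : 2 ≤ σ.card) (g : ι → ℝ) (hg : ∀ a ∈ σ, g a ≠ 0) :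
    ∃ α β : Finset ι, Disjoint α β ∧ α ∪ β = σ ∧ α.Nonempty ∧ β.Nonempty ∧
      (∃ s, ∀ a ∈ α, 0 < sg s * g a) ∧ (∃ s, ∀ b ∈ β, 0 < sg s * g b) := by
  classical
  by_cases h1 : ∃ s, ∀ a ∈ σ, 0 < sg s * g a
  · obtain ⟨s, hs⟩ := h1
    obtain ⟨a, ha⟩ : σ.Nonempty := Finset.card_pos.1 (by omega)
    refine ⟨{a}, σ.erase a, ?_, ?_, ⟨a, Finset.mem_singleton_self a⟩, ?_, ⟨s, ?_⟩, ⟨s, ?_⟩⟩
    · rw [Finset.disjoint_singleton_left]
      exact Finset.notMem_erase a σ
    · rw [← Finset.insert_eq, Finset.insert_erase ha]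
    · rw [← Finset.card_pos, Finset.card_erase_of_mem ha]; omega
    · intro b hb
      rw [Finset.mem_singleton] at hb
      exact hs b (hb ▸ ha)
    · intro b hb
      exact hs b (Finset.mem_of_mem_erase hb)
  · push Not at h1
    refine ⟨σ.filter (fun a => 0 < g a), σ.filter (fun a => ¬ 0 < g a), ?_, ?_, ?_, ?_,
      ⟨true, ?_⟩, ⟨false, ?_⟩⟩
    · exact Finset.disjoint_filter_filter_not _ _ _
    · exact Finset.filter_union_filter_not_eq _ _
    · obtain ⟨a, ha, ha'⟩ := h1 false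
      have := hg a ha
      refine ⟨a, Finset.mem_filter.2 ⟨ha, ?_⟩⟩
      simp only [sg, Bool.false_eq_true, if_false] at ha'
      rcases lt_or_gt_of_ne this with h | h
      · linarith
      · exact h
    · obtain ⟨a, ha, ha'⟩ := h1 true
      refine ⟨a, Finset.mem_filter.2 ⟨ha, ?_⟩⟩
      simp only [sg, if_true, one_mul] at ha'
      exact not_lt.2 ha'
    · intro a ha
      simp only [sg, if_true, one_mul]
      exact (Finset.mem_filter.1 ha).2
    · intro a ha
      have h2 := Finset.mem_filter.1 ha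
      have h3 := hg a h2.1
      simp only [sg, Bool.false_eq_true, if_false]
      have h4 := lt_of_le_of_ne (not_lt.1 h2.2) h3
      linarith

theorem card_le_abstract [FiniteDimensional ℝ L] (v : ι → L) (V : Finset ι) (d : ℕ) (hd : 2 ≤ d)
    (hfr : Module.finrank ℝ L = d + 1)
    (hli : ∀ S ⊆ V, S.card ≤ d + 1 → LinearIndependent ℝ (fun x : S => v x))
    (T : Finset (Finset ι)) (hT : ∀ σ ∈ T, σ ⊆ V ∧ σ.card = d)
    (hno : ∀ α β X Y : Finset ι, Disjoint α β → α ∪ β ∈ T → α ∪ X ∈ T → β ∪ Y ∈ T →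
      ∀ f : L →ₗ[ℝ] ℝ, (∀ a ∈ α ∪ β, f (v a) = 0) → (∀ x ∈ X, 0 < f (v x)) →
        (∀ y ∈ Y, f (v y) < 0) → False) :
    T.card ≤ 4 * (2 ^ (d - 1) - 1) * V.card.choose (d - 1) := by
  classical
  -- the generic vector `u`
  obtain ⟨u, hu⟩ : ∃ u : L, ∀ σ ∈ V.powersetCard d,
      u ∉ Submodule.span ℝ (Set.range (fun x : σ => v x)) := by
    obtain ⟨u, hu⟩ := Submodule.exists_forall_notMem_of_forall_ne_top (K := ℝ) (M := L)
      (ι := (V.powersetCard d : Finset (Finset ι)))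
      (fun σ => Submodule.span ℝ (Set.range (fun x : (σ : Finset ι) => v x))) (by
        intro σ h
        have h1 := finrank_range_le_card (R := ℝ) (fun x : (σ : Finset ι) => v x)
        rw [Set.finrank, h, finrank_top, hfr, Fintype.card_coe,
          (Finset.mem_powersetCard.1 σ.2).2] at h1
        omega)
    exact ⟨u, fun σ hσ => hu ⟨σ, hσ⟩⟩
  have hex : ∀ σ ∈ V.powersetCard d, ∃ (κ : ι → L →ₗ[ℝ] ℝ) (f : L →ₗ[ℝ] ℝ),
      IsFrame v u σ κ f := by
    intro σ hσ
    have h1 := Finset.mem_powersetCard.1 hσ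
    exact exists_frame v u σ (by rw [h1.2, hfr]) (hli σ h1.1 (by omega)) (hu σ hσ)
  choose! κ f hF using hex
  -- the generic vector `p`
  obtain ⟨p, hp⟩ : ∃ p : L, ∀ σ ∈ V.powersetCard d, ∀ a ∈ σ, κ σ a p ≠ 0 := by
    obtain ⟨p, hp⟩ := Module.Dual.exists_forall_ne_zero_of_forall_exists (K := ℝ) (M := L)
      (ι := (((V.powersetCard d) ×ˢ V).filter (fun x => x.2 ∈ x.1) : Finset (Finset ι × ι)))
      (fun x => κ (x : Finset ι × ι).1 (x : Finset ι × ι).2) (by
        rintro ⟨⟨σ, a⟩, h⟩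
        rw [Finset.mem_filter, Finset.mem_product] at h
        refine ⟨v a, ?_⟩
        show κ σ a (v a) ≠ 0
        rw [(hF σ h.1.1).kk a h.2]
        exact one_ne_zero)
    refine ⟨p, fun σ hσ a ha => hp ⟨(σ, a), ?_⟩⟩
    rw [Finset.mem_filter, Finset.mem_product]
    exact ⟨⟨hσ, (Finset.mem_powersetCard.1 hσ).1 ha⟩, ha⟩
  -- the generic vector `p'`
  obtain ⟨p', hp'⟩ : ∃ p' : L, ∀ σ ∈ V.powersetCard d, ∀ a ∈ σ, ∀ b ∈ σ, a ≠ b →
      κ σ a p * κ σ b p' ≠ κ σ b p * κ σ a p' := by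
    obtain ⟨p', hp'⟩ := Module.Dual.exists_forall_ne_zero_of_forall_exists (K := ℝ) (M := L)
      (ι := (((V.powersetCard d) ×ˢ (V ×ˢ V)).filter
        (fun x => x.2.1 ∈ x.1 ∧ x.2.2 ∈ x.1 ∧ x.2.1 ≠ x.2.2) : Finset (Finset ι × (ι × ι))))
      (fun x => (κ (x : Finset ι × (ι × ι)).1 (x : Finset ι × (ι × ι)).2.1 p) •
          κ (x : Finset ι × (ι × ι)).1 (x : Finset ι × (ι × ι)).2.2 -
        (κ (x : Finset ι × (ι × ι)).1 (x : Finset ι × (ι × ι)).2.2 p) •
          κ (x : Finset ι × (ι × ι)).1 (x : Finset ι × (ι × ι)).2.1) (by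
        rintro ⟨⟨σ, a, b⟩, h⟩
        rw [Finset.mem_filter, Finset.mem_product, Finset.mem_product] at h
        obtain ⟨⟨h1, _, _⟩, h2, h3, h4⟩ := h
        refine ⟨v b, ?_⟩
        show (κ σ a p • κ σ b - κ σ b p • κ σ a) (v b) ≠ 0
        rw [LinearMap.sub_apply, LinearMap.smul_apply, LinearMap.smul_apply,
          (hF σ h1).kk b h3, (hF σ h1).kne a h2 b h3 h4, smul_eq_mul, smul_eq_mul, mul_one,
          mul_zero, sub_zero]
        exact hp σ h1 a h2)
    refine ⟨p', fun σ hσ a ha b hb hab h => hp' ⟨(σ, a, b), ?_⟩ ?_⟩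
    · rw [Finset.mem_filter, Finset.mem_product, Finset.mem_product]
      exact ⟨⟨hσ, (Finset.mem_powersetCard.1 hσ).1 ha, (Finset.mem_powersetCard.1 hσ).1 hb⟩,
        ha, hb, hab⟩
    · show (κ σ a p • κ σ b - κ σ b p • κ σ a) p' = 0
      rw [LinearMap.sub_apply, LinearMap.smul_apply, LinearMap.smul_apply, smul_eq_mul,
        smul_eq_mul, h, sub_self]
  -- the families
  let Fam : Finset ι → Bool × Bool → Finset (Finset ι) := fun γ st =>
    ((V \ γ).powersetCard (d - γ.card)).filter (fun τ => γ ∪ τ ∈ T ∧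
      (∀ b ∈ τ, 0 < sg st.1 * κ (γ ∪ τ) b p) ∧
      ∀ X ⊆ V \ γ, X.card = d - γ.card → γ ∪ X ∈ T → ¬ ∀ x ∈ X, sg st.2 * f (γ ∪ τ) (v x) < 0)
  have hTpow : ∀ σ ∈ T, σ ∈ V.powersetCard d := fun σ hσ => Finset.mem_powersetCard.2 (hT σ hσ)
  have hFam : ∀ γ st, γ ⊆ V → γ.card < d →
      (Fam γ st).card ≤ (V.card - γ.card).choose (d - 1 - γ.card) := by
    intro γ st hγ hγd
    have h1 : ∀ τ ∈ Fam γ st, τ ⊆ V \ γ ∧ τ.card = d - γ.card ∧ γ ∪ τ ∈ T ∧
      (∀ b ∈ τ, 0 < sg st.1 * κ (γ ∪ τ) b p) ∧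
      ∀ X ⊆ V \ γ, X.card = d - γ.card → γ ∪ X ∈ T →
        ¬ ∀ x ∈ X, sg st.2 * f (γ ∪ τ) (v x) < 0 := by
      intro τ hτ
      have := Finset.mem_filter.1 hτ
      exact ⟨(Finset.mem_powersetCard.1 this.1).1, (Finset.mem_powersetCard.1 this.1).2, this.2⟩
    have h2 := fam_card_le v (sg st.2 • u) V γ (d - γ.card) (by omega) (Fam γ st)
      (fun τ hτ => (h1 τ hτ).1) (fun τ hτ => (h1 τ hτ).2.1)
      (fun τ => κ (γ ∪ τ)) (fun τ => sg st.2 • f (γ ∪ τ))
      (fun τ hτ => (hF _ (hTpow _ (h1 τ hτ).2.2.1)).smul_u (sg_mul_self _))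
      (sg st.1 • p) p' ?_ ?_ ?_ ?_
    · rw [Finset.card_sdiff_of_subset hγ] at h2
      rw [show d - 1 - γ.card = d - γ.card - 1 by omega]
      exact h2
    · intro τ hτ b hb
      rw [map_smul, smul_eq_mul]
      exact (h1 τ hτ).2.2.2.1 b hb
    · intro τ hτ a ha b hb hab
      have h3 := hp' _ (hTpow _ (h1 τ hτ).2.2.1) a (Finset.mem_union_right _ ha) b
        (Finset.mem_union_right _ hb) hab
      rw [map_smul, map_smul, smul_eq_mul, smul_eq_mul, mul_assoc, mul_assoc]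
      intro h
      exact h3 (mul_left_cancel₀ (sg_ne_zero _) h)
    · intro τ hτ x hx hxτ
      have h3 := (h1 τ hτ).2.2.1
      have h4 := hTpow _ h3
      have hxn : x ∉ γ ∪ τ := by
        rw [Finset.mem_union, not_or]
        exact ⟨(Finset.mem_sdiff.1 hx).2, hxτ⟩
      have h5 := (hF _ h4).ne_zero (x := x) hxn
        (hli (insert x (γ ∪ τ)) (Finset.insert_subset (Finset.mem_sdiff.1 hx).1 (hT _ h3).1)
          (by rw [Finset.card_insert_of_notMem hxn, (hT _ h3).2]))
      rw [LinearMap.smul_apply, smul_eq_mul]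
      exact mul_ne_zero (sg_ne_zero _) h5
    · intro β hβ τ hτ h
      refine (h1 β hβ).2.2.2.2 τ (h1 τ hτ).1 (h1 τ hτ).2.1 (h1 τ hτ).2.2.1 (fun x hx => ?_)
      have := h x hx
      rw [LinearMap.smul_apply, smul_eq_mul] at this
      exact this
  -- the families cover `T`
  have hcov : T ⊆ (Finset.Icc 1 (d - 1)).biUnion (fun i => (V.powersetCard i).biUnion (fun γ =>
      (Finset.univ : Finset (Bool × Bool)).biUnion (fun st =>
        (Fam γ st).image (fun τ => γ ∪ τ)))) := by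
    intro σ hσ
    have hσV := (hT σ hσ).1
    have hσd := (hT σ hσ).2
    have hσF := hF σ (hTpow σ hσ)
    obtain ⟨α, β, h1, h2, h3, h4, ⟨s, h5⟩, ⟨s', h6⟩⟩ := exists_split σ (by omega)
      (fun a => κ σ a p) (fun a ha => hp σ (hTpow σ hσ) a ha)
    have hcd : α.card + β.card = d := by
      rw [← Finset.card_union_of_disjoint h1, h2, hσd]
    have hα := Finset.card_pos.2 h3
    have hβ := Finset.card_pos.2 h4
    have hαV : α ⊆ V := (h2 ▸ Finset.subset_union_left : α ⊆ σ).trans hσV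
    have hβV : β ⊆ V := (h2 ▸ Finset.subset_union_right : β ⊆ σ).trans hσV
    have h7 : β ∈ Fam α (s', false) ∨ α ∈ Fam β (s, true) := by
      by_contra hcon
      rw [not_or] at hcon
      obtain ⟨hc1, hc2⟩ := hcon
      simp only [Fam, Finset.mem_filter, not_and] at hc1 hc2
      have hc1' := hc1 (Finset.mem_powersetCard.2 ⟨Finset.subset_sdiff.2 ⟨hβV, h1.symm⟩, by omega⟩)
        (by rw [h2]; exact hσ) (by rw [h2]; exact h6)
      have hc2' := hc2 (Finset.mem_powersetCard.2 ⟨Finset.subset_sdiff.2 ⟨hαV, h1⟩, by omega⟩)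
        (by rw [Finset.union_comm, h2]; exact hσ) (by rw [Finset.union_comm, h2]; exact h5)
      push Not at hc1' hc2'
      obtain ⟨X, hX1, hX2, hX3, hX4⟩ := hc1'
      obtain ⟨Y, hY1, hY2, hY3, hY4⟩ := hc2'
      rw [h2] at hX4
      rw [Finset.union_comm, h2] at hY4
      refine hno α β X Y h1 (by rw [h2]; exact hσ) hX3 hY3 (f σ) (by rw [h2]; exact hσF.fv)
        (fun x hx => ?_) (fun y hy => ?_)
      · have := hX4 x hx
        simp only [sg, Bool.false_eq_true, if_false] at this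
        linarith
      · have := hY4 y hy
        simp only [sg, if_true, one_mul] at this
        exact this
    simp only [Finset.mem_biUnion, Finset.mem_image, Finset.mem_Icc, Finset.mem_powersetCard]
    rcases h7 with h7 | h7
    · exact ⟨α.card, by omega, α, ⟨hαV, rfl⟩, (s', false), Finset.mem_univ _, β, h7, h2⟩
    · exact ⟨β.card, by omega, β, ⟨hβV, rfl⟩, (s, true), Finset.mem_univ _, α, h7,
        by rw [Finset.union_comm, h2]⟩
  -- counting
  rcases T.eq_empty_or_nonempty with h0 | ⟨σ0, hσ0⟩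
  · rw [h0, Finset.card_empty]; exact Nat.zero_le _
  have hdn : d ≤ V.card := by
    rw [← (hT σ0 hσ0).2]
    exact Finset.card_le_card (hT σ0 hσ0).1
  calc T.card ≤ ∑ i ∈ Finset.Icc 1 (d - 1), ∑ γ ∈ V.powersetCard i,
        ∑ st ∈ (Finset.univ : Finset (Bool × Bool)), (Fam γ st).card := by
        refine (Finset.card_le_card hcov).trans ?_
        refine Finset.card_biUnion_le.trans (Finset.sum_le_sum (fun i _ => ?_))
        refine Finset.card_biUnion_le.trans (Finset.sum_le_sum (fun γ _ => ?_))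
        refine Finset.card_biUnion_le.trans (Finset.sum_le_sum (fun st _ => ?_))
        exact Finset.card_image_le
    _ ≤ ∑ i ∈ Finset.Icc 1 (d - 1), ∑ γ ∈ V.powersetCard i,
        ∑ st ∈ (Finset.univ : Finset (Bool × Bool)), (V.card - i).choose (d - 1 - i) := by
        refine Finset.sum_le_sum (fun i hi => Finset.sum_le_sum (fun γ hγ =>
          Finset.sum_le_sum (fun st _ => ?_)))
        rw [Finset.mem_Icc] at hi
        rw [Finset.mem_powersetCard] at hγ
        have := hFam γ st hγ.1 (by omega)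
        rw [hγ.2] at this
        exact this
    _ = ∑ i ∈ Finset.Icc 1 (d - 1), 4 * (V.card.choose (d - 1) * (d - 1).choose i) := by
        refine Finset.sum_congr rfl (fun i hi => ?_)
        rw [Finset.mem_Icc] at hi
        rw [Finset.sum_const, Finset.sum_const, Finset.card_univ, Finset.card_powersetCard,
          smul_eq_mul, smul_eq_mul, Nat.choose_mul (by omega)]
        simp only [Fintype.card_prod, Fintype.card_bool]
        ring
    _ = 4 * (2 ^ (d - 1) - 1) * V.card.choose (d - 1) := by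
        rw [← Finset.mul_sum, ← Finset.mul_sum]
        have h1 := Nat.sum_range_choose (d - 1)
        rw [Finset.range_eq_Ico, Finset.sum_eq_sum_Ico_succ_bot (by omega), Nat.choose_zero_right] at h1
        have h2 : Finset.Ico (0 + 1) (d - 1 + 1) = Finset.Icc 1 (d - 1) := by
          ext x; simp only [Finset.mem_Ico, Finset.mem_Icc]; omega
        rw [h2] at h1
        have h3 : ∑ i ∈ Finset.Icc 1 (d - 1), (d - 1).choose i = 2 ^ (d - 1) - 1 := by omega
        rw [h3]
        ring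

end main

end Pool.Agent.Helper909.GeoHyper
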